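import Mathlib

/-!
# Total domination in two-factorizations of `K(s,s)`

For all `s ≥ 4` there are complementary spanning subgraphs of `K(s,s)`, both without isolated
vertices and both with total domination number at least `⌊s/2⌋ + 2`. For `s = 24` and all
`s ≥ 26` the product of the total domination numbers is larger than `8s`.
-/

set_option autoImplicit false

namespace Pool.Agent.Results.MP_69ced1_co.PairedBlocks

/-- `S` is a total dominating set of `G`: every vertex has a neighbour in `S`. -/
def IsTotalDominating {V : Type*} (G : SimpleGraph V) (S : Finset V) : Prop :=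
  ∀ v, ∃ w ∈ S, G.Adj v w

/-- The total domination number: the least size of a total dominating set. -/
noncomputable def totalDomNum {V : Type*} (G : SimpleGraph V) : ℕ :=
  sInf {m | ∃ S : Finset V, IsTotalDominating G S ∧ S.card = m}

/-- The bipartite graph on `Fin s ⊕ Fin s` given by a relation. -/
def bip {s : ℕ} (R : Fin s → Fin s → Prop) : SimpleGraph (Fin s ⊕ Fin s) where
  Adj
    | Sum.inl l, Sum.inr r => R l r
    | Sum.inr r, Sum.inl l => R l r
    | _, _ => False
  symm := ⟨by rintro (a | a) (b | b) h <;> exact h⟩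
  loopless := ⟨by rintro (a | a) h <;> exact h⟩

/-- The relation: a left vertex `l` and a small right vertex `r` (that is `r < h`) are related
when they are congruent modulo `h`; a left vertex and a large right vertex when they are not. -/
def rel (h : ℕ) {s : ℕ} (l r : Fin s) : Prop :=
  (r.val < h ↔ l.val % h = r.val % h)

lemma adj_lr {s : ℕ} {R : Fin s → Fin s → Prop} {l r : Fin s} :
    (bip R).Adj (Sum.inl l) (Sum.inr r) ↔ R l r := Iff.rfl

lemma adj_rl {s : ℕ} {R : Fin s → Fin s → Prop} {l r : Fin s} :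
    (bip R).Adj (Sum.inr r) (Sum.inl l) ↔ R l r := Iff.rfl

lemma adj_ll {s : ℕ} {R : Fin s → Fin s → Prop} {l r : Fin s} :
    ¬ (bip R).Adj (Sum.inl l) (Sum.inl r) := fun h => h

lemma adj_rr {s : ℕ} {R : Fin s → Fin s → Prop} {l r : Fin s} :
    ¬ (bip R).Adj (Sum.inr l) (Sum.inr r) := fun h => h

/-- The common lower bound: `R` is a relation such that for every class `i < h` some right vertex
is related only to left vertices of class `i`, and no single right vertex is related to all left
vertices. -/
lemma lower {s h : ℕ} (R : Fin s → Fin s → Prop)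
    (h1 : ∀ i, i < h → ∃ r : Fin s, ∀ l : Fin s, R l r → l.val % h = i)
    (h2 : ∀ r : Fin s, ∃ l : Fin s, ¬ R l r) (hs : 0 < s)
    (S : Finset (Fin s ⊕ Fin s)) (hS : IsTotalDominating (bip R) S) : h + 2 ≤ S.card := by
  classical
  let A : Finset (Fin s) := Finset.univ.filter (fun l => Sum.inl l ∈ S)
  let B : Finset (Fin s) := Finset.univ.filter (fun r => Sum.inr r ∈ S)
  have hA : h ≤ A.card := by
    have hsub : Finset.range h ⊆ A.image (fun l => l.val % h) := by
      intro i hi
      obtain ⟨r, hr⟩ := h1 i (Finset.mem_range.1 hi)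
      obtain ⟨w, hw, hadj⟩ := hS (Sum.inr r)
      rcases w with l | l
      · exact Finset.mem_image.2 ⟨l, by simp [A, hw], hr l hadj⟩
      · exact absurd hadj adj_rr
    have := (Finset.card_le_card hsub).trans Finset.card_image_le
    simpa using this
  have hB : 2 ≤ B.card := by
    obtain ⟨w, hw, hadj⟩ := hS (Sum.inl ⟨0, hs⟩)
    rcases w with l | r
    · exact absurd hadj adj_ll
    obtain ⟨l, hl⟩ := h2 r
    obtain ⟨w', hw', hadj'⟩ := hS (Sum.inl l)
    rcases w' with l' | r'
    · exact absurd hadj' adj_ll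
    have hne : r ≠ r' := by
      rintro rfl
      exact hl hadj'
    have hsub : ({r, r'} : Finset (Fin s)) ⊆ B := by
      intro x hx
      rcases Finset.mem_insert.1 hx with rfl | hx
      · simp [B, hw]
      · rw [Finset.mem_singleton.1 hx]; simp [B, hw']
    have := Finset.card_le_card hsub
    rwa [Finset.card_pair hne] at this
  have hAB : (A.image Sum.inl ∪ B.image Sum.inr : Finset (Fin s ⊕ Fin s)) ⊆ S := by
    intro x hx
    rcases Finset.mem_union.1 hx with hx | hx
    · obtain ⟨l, hl, rfl⟩ := Finset.mem_image.1 hx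
      simpa [A] using hl
    · obtain ⟨l, hl, rfl⟩ := Finset.mem_image.1 hx
      simpa [B] using hl
  have hcard := Finset.card_le_card hAB
  rw [Finset.card_union_of_disjoint, Finset.card_image_of_injective _ Sum.inl_injective,
    Finset.card_image_of_injective _ Sum.inr_injective] at hcard
  · omega
  · rw [Finset.disjoint_left]
    intro x hx hx'
    obtain ⟨l, _, rfl⟩ := Finset.mem_image.1 hx
    obtain ⟨r, _, h⟩ := Finset.mem_image.1 hx'
    cases h

lemma lower_num {s h : ℕ} (R : Fin s → Fin s → Prop)
    (h1 : ∀ i, i < h → ∃ r : Fin s, ∀ l : Fin s, R l r → l.val % h = i)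
    (h2 : ∀ r : Fin s, ∃ l : Fin s, ¬ R l r) (hs : 0 < s)
    (hiso : ∀ v, ∃ w, (bip R).Adj v w) : h + 2 ≤ totalDomNum (bip R) := by
  classical
  have hne : {m | ∃ S : Finset (Fin s ⊕ Fin s), IsTotalDominating (bip R) S ∧ S.card = m}.Nonempty :=
    ⟨_, Finset.univ, fun v => by obtain ⟨w, hw⟩ := hiso v; exact ⟨w, Finset.mem_univ _, hw⟩, rfl⟩
  obtain ⟨S, hS, hc⟩ := Nat.sInf_mem hne
  unfold totalDomNum
  rw [← hc]
  exact lower R h1 h2 hs S hS

/-- For every `s ≥ 4` there are spanning subgraphs `G₁`, `G₂` of `K(s,s)` whose edge sets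
partition the edge set of `K(s,s)`, neither having an isolated vertex, with
`γ_t(G₁) γ_t(G₂) ≥ (⌊s/2⌋ + 2)²`; if `s = 24` or `s ≥ 26`, then `γ_t(G₁) γ_t(G₂) > 8s`. -/
theorem result : ∀ s : ℕ, 4 ≤ s →
    ∃ G₁ G₂ : SimpleGraph (Fin s ⊕ Fin s),
      G₁ ⊔ G₂ = completeBipartiteGraph (Fin s) (Fin s) ∧ G₁ ⊓ G₂ = ⊥ ∧
      (∀ v, ∃ w, G₁.Adj v w) ∧ (∀ v, ∃ w, G₂.Adj v w) ∧
      (s / 2 + 2) ^ 2 ≤ totalDomNum G₁ * totalDomNum G₂ ∧
      (s = 24 ∨ 26 ≤ s → 8 * s < totalDomNum G₁ * totalDomNum G₂) := by
  intro s hs
  obtain ⟨h, hh⟩ : ∃ h, h = s / 2 := ⟨_, rfl⟩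
  have hh2 : 2 ≤ h := by omega
  have hhs : 2 * h ≤ s := by omega
  have hmod : ∀ i, i < h → (h + i) % h = i := fun i hi => by
    rw [Nat.add_mod_left, Nat.mod_eq_of_lt hi]
  -- no isolated vertices
  have iso1 : ∀ v, ∃ w, (bip (rel h (s := s))).Adj v w := by
    rintro (l | r)
    · have hl : l.val % h < h := Nat.mod_lt _ (by omega)
      refine ⟨Sum.inr ⟨l.val % h, by omega⟩, ?_⟩
      rw [adj_lr]
      simp only [rel, Nat.mod_mod, hl]
    · by_cases hr : r.val < h
      · refine ⟨Sum.inl r, ?_⟩
        rw [adj_rl]; simp [rel, hr]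
      · -- choose a left vertex of another class
        have hc : r.val % h < h := Nat.mod_lt _ (by omega)
        by_cases h0 : r.val % h = 0
        · refine ⟨Sum.inl ⟨1, by omega⟩, ?_⟩
          rw [adj_rl]
          simp only [rel, hr, h0, false_iff]
          rw [Nat.mod_eq_of_lt (by omega)]; omega
        · refine ⟨Sum.inl ⟨0, by omega⟩, ?_⟩
          rw [adj_rl]
          simp only [rel, hr, false_iff, Nat.zero_mod]
          omega
  have iso2 : ∀ v, ∃ w, (bip (fun l r => ¬ rel h (s := s) l r)).Adj v w := by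
    rintro (l | r)
    · have hl : l.val % h < h := Nat.mod_lt _ (by omega)
      refine ⟨Sum.inr ⟨h + l.val % h, by omega⟩, ?_⟩
      rw [adj_lr]
      simp only [rel, hmod _ hl]
      simp
    · by_cases hr : r.val < h
      · by_cases h0 : r.val = 0
        · refine ⟨Sum.inl ⟨1, by omega⟩, ?_⟩
          rw [adj_rl]
          simp only [rel, h0]
          rw [Nat.mod_eq_of_lt (by omega)]; simp; omega
        · refine ⟨Sum.inl ⟨0, by omega⟩, ?_⟩
          rw [adj_rl]
          simp only [rel, hr, true_iff, Nat.zero_mod]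
          rw [Nat.mod_eq_of_lt hr]
          omega
      · refine ⟨Sum.inl r, ?_⟩
        rw [adj_rl]; simp [rel, hr]
  have L1 : h + 2 ≤ totalDomNum (bip (rel h (s := s))) := by
    apply lower_num _ _ _ (by omega) iso1
    · intro i hi
      refine ⟨⟨i, by omega⟩, fun l hl => ?_⟩
      have := hl.1 hi
      simpa [Nat.mod_eq_of_lt hi] using this
    · intro r
      by_cases hr : r.val < h
      · by_cases h0 : r.val = 0
        · refine ⟨⟨1, by omega⟩, fun hl => ?_⟩
          have := hl.1 hr
          simp only [h0, Nat.zero_mod] at this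
          rw [Nat.mod_eq_of_lt (by omega)] at this
          omega
        · refine ⟨⟨0, by omega⟩, fun hl => ?_⟩
          have := hl.1 hr
          simp only [Nat.zero_mod] at this
          rw [Nat.mod_eq_of_lt hr] at this
          omega
      · exact ⟨r, fun hl => hr (hl.2 rfl)⟩
  have L2 : h + 2 ≤ totalDomNum (bip (fun l r => ¬ rel h (s := s) l r)) := by
    apply lower_num _ _ _ (by omega) iso2
    · intro i hi
      refine ⟨⟨h + i, by omega⟩, fun l hl => ?_⟩
      by_contra hne
      apply hl
      simp only [rel, hmod i hi]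
      constructor
      · intro h'; omega
      · intro h'; exact absurd h' hne
    · intro r
      by_cases hr : r.val < h
      · exact ⟨r, fun hl => hl ⟨fun _ => rfl, fun _ => hr⟩⟩
      · by_cases h0 : r.val % h = 0
        · refine ⟨⟨1, by omega⟩, fun hl => hl ⟨fun h' => absurd h' hr, fun h' => ?_⟩⟩
          simp only [h0] at h'
          rw [Nat.mod_eq_of_lt (by omega)] at h'
          omega
        · refine ⟨⟨0, by omega⟩, fun hl => hl ⟨fun h' => absurd h' hr, fun h' => ?_⟩⟩
          simp only [Nat.zero_mod] at h'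
          omega
  have hprod := Nat.mul_le_mul L1 L2
  refine ⟨bip (rel h), bip (fun l r => ¬ rel h l r), ?_, ?_, iso1, iso2, ?_, ?_⟩
  · ext u v
    rw [SimpleGraph.sup_adj]
    rcases u with u | u <;> rcases v with v | v
    · simp [adj_ll]
    · simp only [adj_lr, completeBipartiteGraph_adj]
      simp [em]
    · simp only [adj_rl, completeBipartiteGraph_adj]
      simp [em]
    · simp [adj_rr]
  · ext u v
    rw [SimpleGraph.inf_adj]
    rcases u with u | u <;> rcases v with v | v
    · simp [adj_ll]
    · simp [adj_lr]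
    · simp [adj_rl]
    · simp [adj_rr]
  · rw [pow_two, ← hh]; exact hprod
  · intro hcase
    refine lt_of_lt_of_le ?_ hprod
    rcases hcase with rfl | h26
    · subst hh; norm_num
    · have h13 : 13 ≤ h := by omega
      have : s ≤ 2 * h + 1 := by omega
      nlinarith

end Pool.Agent.Results.MP_69ced1_co.PairedBlocks
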